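import Pool.Agent.U419.AL.Three
import Pool.Agent.Results.MP_924d78_nt.SeveralLevels

/-!
# Tame representations over local rings: most tuples of arbitrary primes

Let `p` be a prime and `p ^ m > 2`. A finite set `T` of prime numbers is called tame if the
following holds in every dimension `n`, for every Noetherian local ring `A` of residue characteristic
`p` with its adic topology, and for every continuous `ρ : G_ℚ → GL_n(A)` which is unramified at `p` and
at all primes `l ≡ 1 mod p ^ m` outside `T`, and such that the inertia groups at all primes `l ≠ p` act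
trivially modulo `p ^ m` and modulo the exact power of `p` which divides `l - 1`: `ρ` is trivial if `p`
is not a zero divisor in `A` (more generally if `p ^ (m + 1) a = 0` implies `p ^ m a = 0` in `A`), and
for every `A` the image of `ρ` is finite if `ρ` is ramified at finitely many primes only.

We show that most `k`-tuples of prime numbers are tame. There is no condition on the congruence
classes of the primes: the levels (the exponents of the exact powers of `p` dividing the `l - 1`) are
arbitrary and different.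

* The proportion of the tame `k`-tuples is at least
  `1 - (1 - 1 / p) ^ 2 C(k, 3) / (p ^ (3 (m - 1)) (p ^ 3 - 1)) - C(k, 4) / (p ^ (4 (m - 1)) (p ^ 4 - 1))`.
* For `p = 2` it is at least
  `1 - (12 / 1024) C(k, 5) / (31 · 2 ^ (5 (m - 1))) - C(k, 6) / (63 · 2 ^ (6 (m - 1)))`.

For example (`m = 2` for `p = 2`, `m = 1` for odd `p`), this is more than `99.998`, `99.9`, `99.2` and
`94` percent of all quintuples, sextuples, octuples and `10`-tuples for `p = 2`, more than `98` percent
of all triples for `p = 3`, and more than `97` percent of all quintuples for `p = 7`.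

Proof. The levels of different primes are independent, the level `j ≥ 1` has the density `p ^ (-j)`
(prime number theorem in arithmetic progressions). Different levels do not interact, by the starting
result `SeveralLevels`, and two primes of the same level, or four if `p = 2`, are harmless (linear
algebra of linking numbers). Three primes of the same level are harmless if one of the linking numbers
of the first prime with the others vanishes. For `p = 2` and five primes of the same level the only
patterns of quadratic residues which may be bad are the `12` cycles of length five among the `1024`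
graphs. The linking numbers are equidistributed in each level (large sieve, `Pool/Agent/Q315/FM`).
-/

set_option autoImplicit false

open NumberField IsLocalRing Filter

namespace Pool.Agent.Results.MP_924d78_nt.AllLevels

/-- the absolute Galois group of `ℚ`, with the Krull topology -/
abbrev AbsGal : Type := Gal(AlgebraicClosure ℚ/ℚ)

/-- `τ` lies in the inertia group at the ideal `P` of the ring of all algebraic integers. -/
def InInertia (P : Ideal (𝓞 (AlgebraicClosure ℚ))) (τ : AbsGal) : Prop :=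
  ∀ x : 𝓞 (AlgebraicClosure ℚ), τ • x - x ∈ P

section
variable {A : Type} [CommRing A] {n : ℕ}

/-- `ρ` is trivial on the inertia groups at the maximal ideals of the ring of all algebraic integers
which contain `p` or a prime number which does not belong to `S`. -/
def UnramifiedOutside (p : ℕ) (S : Set ℕ) (ρ : AbsGal →* GL (Fin n) A) : Prop :=
  ∀ P : Ideal (𝓞 (AlgebraicClosure ℚ)), P.IsMaximal → ∀ l : ℕ, l.Prime →
    (l : 𝓞 (AlgebraicClosure ℚ)) ∈ P → (l = p ∨ l ∉ S) → ∀ τ, InInertia P τ → ρ τ = 1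

/-- For every prime number `l ≠ p` the inertia groups at `l` act trivially modulo `p ^ m` and modulo
all powers of `p` which divide `l - 1`. -/
def InertiaCondition (p m : ℕ) (ρ : AbsGal →* GL (Fin n) A) : Prop :=
  ∀ P : Ideal (𝓞 (AlgebraicClosure ℚ)), P.IsMaximal → ∀ l : ℕ, l.Prime → l ≠ p →
    (l : 𝓞 (AlgebraicClosure ℚ)) ∈ P → ∀ τ, InInertia P τ → ∀ k : ℕ, k ≤ m ∨ p ^ k ∣ l - 1 →
      ∀ i j, (p : A) ^ k ∣ ((ρ τ : Matrix (Fin n) (Fin n) A) - 1) i j

end

/-- The finiteness property in dimension `n` of a set `T` of prime numbers: for every Noetherian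
local ring `A` of residue characteristic `p` with its adic topology and every continuous
`ρ : G_ℚ → GL_n(A)` unramified outside `T` and the primes `≢ 1 mod p ^ m`, and at `p`, with inertia
trivial modulo `p ^ m` and the powers of `p` dividing `l - 1`: `ρ` is trivial if `p ^ (m + 1) a = 0`
implies `p ^ m a = 0` in `A`, and the image of `ρ` is finite if `ρ` is unramified outside a finite
set of primes. -/
def TameFM (p m n : ℕ) (T : Set ℕ) : Prop :=
  ∀ (A : Type) [CommRing A] [IsLocalRing A] [IsNoetherianRing A] [TopologicalSpace A],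
    IsAdic (maximalIdeal A) → (p : A) ∈ maximalIdeal A →
    ∀ ρ : AbsGal →* GL (Fin n) A, Continuous ρ →
      UnramifiedOutside p (T ∪ {l | ¬ p ^ m ∣ l - 1}) ρ → InertiaCondition p m ρ →
        ((∀ a : A, (p : A) ^ (m + 1) * a = 0 → (p : A) ^ m * a = 0) → ∀ g, ρ g = 1) ∧
        ((∃ R : Finset ℕ, UnramifiedOutside p R ρ) → (Set.range ρ).Finite)

/-- the prime numbers `l ≤ x` -/
def primes (x : ℕ) : Set ℕ := {l | l ≤ x ∧ l.Prime}

/-- the `k`-tuples of primes `≤ x` which have the finiteness property in every dimension -/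
def Tame (p m k x : ℕ) : Set (Fin k → ℕ) :=
  {t | (∀ i, t i ∈ primes x) ∧ ∀ n, TameFM p m n (Set.range t)}

open Pool.Agent.U419.RF Pool.Agent.Results.MP_924d78_nt.SeveralLevels Pool.Agent.TH831.NA in
/-- the criterion -/
theorem tame_of_crit (p : ℕ) [hp : Fact p.Prime] (m n : ℕ) (hm : 2 < p ^ m) (P : Set ℕ)
    (χ : ∀ j : ℕ, (ZMod j)ˣ →* Multiplicative (ZMod p))
    (hχ : ∀ l : ℕ, l.Prime → p ∣ l - 1 → ∃ x, χ l x ≠ 1)
    (hcrit : ∀ k, m ≤ k → ∀ J : Finset ℕ, J.Nonempty →
      (∀ l ∈ J, l.Prime ∧ l ∈ P ∧ p ^ k ∣ l - 1 ∧ ¬ p ^ (k + 1) ∣ l - 1) →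
        NoSol n (Pool.Agent.Q315.FM.lk χ) (fun l => (((l - 1) / p ^ k : ℕ) : ZMod p)) J) :
    TameFM p m n P := by
  classical
  have hm1 : 1 ≤ m := by
    rcases Nat.eq_zero_or_pos m with h | h
    · rw [h, pow_zero] at hm
      omega
    · exact h
  intro A _ _ _ _ hA hpA ρ hρ hur hI
  -- the ideals of `𝓞 ℚ`
  have key : ∀ R : Set ℕ, (∀ l ∈ R, l.Prime → l ∈ P ∪ {l | ¬ p ^ m ∣ l - 1}) →
      UnramifiedOutside p R ρ →
      ((∀ a : A, (p : A) ^ (m + 1) * a = 0 → (p : A) ^ m * a = 0) → ∀ g, ρ g = 1) ∧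
      (R.Finite → (Set.range ρ).Finite) := by
    intro R hR hurR
    set S : Set (Ideal (𝓞 ℚ)) := {v | ∃ l ∈ R, l.Prime ∧ v = Pool.Agent.W571.FM.pl l} with hS
    have hinj : ∀ l l' : ℕ, Pool.Agent.W571.FM.pl l = Pool.Agent.W571.FM.pl l' → l = l' := by
      intro l l' h
      rw [← Pool.Agent.W571.FM.absNorm_pl l, h, Pool.Agent.W571.FM.absNorm_pl]
    have hres := Pool.Agent.Results.MP_924d78_nt.SeveralLevels.result p m hm n ℚ S ?_ A hA hpA ρ hρ
      (Or.inl (Or.inl (Module.finrank_self ℚ))) ?_ ?_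
    · refine ⟨hres.1, fun hfin => hres.2 ?_⟩
      refine (hfin.image Pool.Agent.W571.FM.pl).subset ?_
      rintro v ⟨l, hl, -, rfl⟩
      exact ⟨l, hl, rfl⟩
    · intro k hk
      right
      refine crit_rat (by omega) χ hχ S fun J hJ hJS => hcrit k hk J hJ fun l hl => ?_
      obtain ⟨hl1, -, hl3, hl4, l', hl5, -, hl6⟩ := hJS l hl
      have hll : l = l' := hinj _ _ hl6
      rw [← hll] at hl5
      refine ⟨hl1, ?_, hl3, hl4⟩
      rcases hR l hl5 hl1 with h | h
      · exact h
      · exact absurd ((pow_dvd_pow p hk).trans hl3) h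
    · intro I hI h τ hτ
      obtain ⟨q, hq, hqI⟩ := Pool.Agent.W569.FM.exists_char I hI
      refine hurR I hI q hq hqI ?_ τ hτ
      rcases h with h | h
      · left
        have e1 := Pool.Agent.W571.FM.cm_eq hq hI hqI
        have e2 := Pool.Agent.W571.FM.cm_eq hp.out hI h
        exact hinj _ _ (e1.symm.trans e2)
      · right
        intro hqR
        exact h ⟨q, hqR, hq, Pool.Agent.W571.FM.cm_eq hq hI hqI⟩
    · intro I hI' hpI τ hτ k hk i j
      obtain ⟨q, hq, hqI⟩ := Pool.Agent.W569.FM.exists_char I hI'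
      have hqp : q ≠ p := by
        rintro rfl
        exact hpI hqI
      have e : Ideal.absNorm (below I) = q := nm_rat hq hI' hqI
      rw [e] at hk
      exact hI I hI' q hq hqp hqI τ hτ k hk i j
  refine ⟨(key _ (fun l hl _ => hl) hur).1, ?_⟩
  rintro ⟨R, hR⟩
  refine (key (↑R ∩ (P ∪ {l | ¬ p ^ m ∣ l - 1})) (fun l hl _ => hl.2) ?_).2
    (R.finite_toSet.inter_of_left _)
  intro I hI' l hl hlI h τ hτ
  rcases h with h | h
  · exact hur I hI' l hl hlI (Or.inl h) τ hτ
  · by_cases hlR : l ∈ (R : Set ℕ)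
    · exact hur I hI' l hl hlI (Or.inr fun h' => h ⟨hlR, h'⟩) τ hτ
    · exact hR I hI' l hl hlI (Or.inr hlR) τ hτ

open Pool.Agent.U419.AL

theorem primes_eq (x : ℕ) : primes x = ↑(pr x) := by
  ext l
  rw [Finset.mem_coe, mem_pr]
  rfl

theorem primes_card (x : ℕ) : (primes x).ncard = (pr x).card := by
  rw [primes_eq, Set.ncard_coe_finset]

theorem tame_ge {p m k x : ℕ} (F : Finset (Fin k → ℕ)) (h : ∀ t ∈ F, t ∈ Tame p m k x) :
    (F.card : ℝ) ≤ ((Tame p m k x).ncard : ℝ) := by
  have hsub : Tame p m k x ⊆ ↑(Pool.Agent.Q315.FM.tup k (pr x)) := by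
    rintro t ⟨h, -⟩
    rw [Finset.mem_coe, Pool.Agent.Q315.FM.mem_tup]
    intro i
    have := h i
    rwa [primes_eq, Finset.mem_coe] at this
  rw [← Set.ncard_coe_finset]
  exact_mod_cast Set.ncard_le_ncard (fun t ht => h t ht)
    ((Pool.Agent.Q315.FM.tup k (pr x)).finite_toSet.subset hsub)

/-- **Most tuples of prime numbers have the finiteness property in all dimensions.** Let `p` be a
prime and `p ^ m > 2`. (1) For every `k` and `ε > 0` and all large `x` at least `(1 - d - ε) π(x) ^ k` of
the `k`-tuples of primes `≤ x` have the property `TameFM` in every dimension, where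
`d = (1 - 1 / p) ^ 2 C(k, 3) / (p ^ (3 (m - 1)) (p ^ 3 - 1)) + C(k, 4) / (p ^ (4 (m - 1)) (p ^ 4 - 1))`.
(2) If `p = 2` this holds for at least
`(1 - (12 / 1024) C(k, 5) / (31 · 2 ^ (5 (m - 1))) - C(k, 6) / (63 · 2 ^ (6 (m - 1))) - ε) π(x) ^ k`. -/
theorem result (p : ℕ) [hp : Fact p.Prime] (m : ℕ) (hm : 2 < p ^ m) (k : ℕ) :
    (∀ ε : ℝ, 0 < ε → ∀ᶠ x : ℕ in atTop,
      (1 - (1 - 1 / (p : ℝ)) ^ 2 * (k.choose 3) / ((p : ℝ) ^ (3 * (m - 1)) * ((p : ℝ) ^ 3 - 1)) -
        (k.choose 4) / ((p : ℝ) ^ (4 * (m - 1)) * ((p : ℝ) ^ 4 - 1)) - ε) *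
        ((primes x).ncard : ℝ) ^ k ≤ ((Tame p m k x).ncard : ℝ)) ∧
    (p = 2 → ∀ ε : ℝ, 0 < ε → ∀ᶠ x : ℕ in atTop,
      (1 - 12 / 1024 * (k.choose 5) / ((2 : ℝ) ^ (5 * (m - 1)) * 31) -
        (k.choose 6) / ((2 : ℝ) ^ (6 * (m - 1)) * 63) - ε) *
        ((primes x).ncard : ℝ) ^ k ≤ ((Tame p m k x).ncard : ℝ)) := by
  classical
  obtain ⟨χ, hχ⟩ := Pool.Agent.Q315.FM.exists_chars p
  have hm1 : 1 ≤ m := by
    rcases Nat.eq_zero_or_pos m with h | h
    · rw [h, pow_zero] at hm
      omega
    · exact h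
  constructor
  · intro ε hε
    filter_upwards [three_good χ hχ m k hm1 ε hε] with x hx
    rw [primes_card]
    refine hx.trans (tame_ge _ fun t ht => ?_)
    rw [Finset.mem_filter, Pool.Agent.Q315.FM.mem_tup] at ht
    refine ⟨fun i => by rw [primes_eq]; exact ht.1 i, fun n => ?_⟩
    refine tame_of_crit p m n hm _ χ hχ fun j hj J hJ hJl => ?_
    exact noSol_three (x := x) j t (fun i => mem_pr.1 (ht.1 i)) (fun s hs => ht.2.1 s hs j hj)
      (fun s hs => ht.2.2 s hs j hj) J hJ (fun l hl => (hJl l hl).2)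
  · rintro rfl ε hε
    have hm2 : 2 ≤ m := by
      by_contra hcon
      interval_cases m
      norm_num at hm
    filter_upwards [two_good m k hm2 ε hε] with x hx
    rw [primes_card]
    refine le_trans (le_of_eq ?_) (hx.trans (tame_ge _ fun t ht => ?_))
    · norm_num
    rw [Finset.mem_filter, Pool.Agent.Q315.FM.mem_tup] at ht
    refine ⟨fun i => by rw [primes_eq]; exact ht.1 i, fun n => ?_⟩
    refine tame_of_crit 2 m n hm _ χ hχ fun j hj J hJ hJl => ?_
    refine noSol_two (hm2.trans hj) hχ J (fun l hl => ⟨(hJl l hl).1, (hJl l hl).2.2⟩) ?_ J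
      subset_rfl hJ
    intro J' hJ' h5
    exact thin_five (x := x) j (hm2.trans hj) t (fun i => mem_pr.1 (ht.1 i))
      (fun s hs => ht.2.1 s hs j hj) (fun s hs => ht.2.2 s hs j hj) J'
      (fun l hl => (hJl l (hJ' hl)).2) h5

end Pool.Agent.Results.MP_924d78_nt.AllLevels
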