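import Pool.Agent.U849.FO.Ring

/-!
# Tame representations with many Frobenius elements whose eigenvalue ratios are roots of unity

Let `K` be a number field, `p` a prime number, `A` a complete noetherian local ring with finite residue
field of characteristic `p` such that `p` is in no minimal prime ideal of `A` (for example `A` flat over
`ℤ_p`, of any dimension, not necessarily reduced), and `ρ : G_K → GL_n(A)` a continuous representation, with
no condition on the ramification. Suppose that for the places `v` of a set of positive upper density
some power of `ρ(Frob_v)` is the sum of a scalar and a nilpotent matrix (in the form: the other places do not have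
lower density `1`). For example, the Frobenius elements are of finite order, or their eigenvalues, or the ratios
of their eigenvalues, are roots of unity.

* Then `ρ` is virtually solvable: the image of an open subgroup of `G_K` is solvable.
* If moreover all open subgroups of `ρ(G_K)` have finite abelianizations (`FiniteAbelianizations`) then
  `ρ` has finite image.

By class field theory (the known results quoted in the problem), the condition `FiniteAbelianizations` is
satisfied by all representations of `G_{K,S}^tame`. So for these coefficient rings a tame representation with infinite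
image has a set of density one of places `v` such that no power of `ρ(Frob_v)` is the sum of a
scalar and a nilpotent matrix.

In the file the condition on `A` is `Enough`: there are finitely many continuous homomorphisms of `A` to
complete algebraically closed extensions of `ℚ_p` (with a norm which extends the norm of `ℚ_p`) whose kernels have
nilpotent intersection. For a complete noetherian local ring as above one takes a homomorphism for each minimal
prime ideal `P`: the ring `A / P` is finite over a ring `ℤ_p[[T_1, …, T_d]]` (Cohen), which is contained in the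
completed algebraic closure of its field of fractions for the Gauss norm `max |a_i| r ^ i`, `r < 1`.

Proof. Over a complete algebraically closed field `E` we pass to the adjoint representation, and may suppose that
the eigenvalues of many `ρ(Frob_v)` are roots of unity. They have bounded order `M`, since quasi-unipotent
matrices near `1` are unipotent (`p`-adic logarithm). By Chebotarev's theorem for closed sets the set of all
`x` with `(ρ(x) ^ M - 1) ^ n = 0` has positive Haar measure, so that it contains a coset `g U` of an open
subgroup. Let `ρ` be irreducible, and let `L` be the span of the logarithms of the elements of a small open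
normal subgroup, a Lie algebra of finite dimension over `E`. The derivatives of the equations
`tr(ρ(g u) ^ (M k)) = n` show that the logarithm of a power of `ρ(g u)` is a nilpotent element of the radical of
the trace form of `L`; by Cartan's criterion (Mathlib) such elements vanish. So the elements of `g U` have
finite order, the derivatives of `ρ(g u) ^ M = 1` show that `L` has an automorphism of finite order
without fixed points, and `L` is solvable by Kreknin's theorem. Finally the kernels of
`GL_n(A) → GL_n(A / J)`, `J` nilpotent, are nilpotent groups.
-/

set_option autoImplicit false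

namespace Pool.Agent.Results.MP_924d78_nt.FlatCoefficients

open NumberField IsDedekindDomain Filter

/-- the absolute Galois group of the field `K`, with the Krull topology -/
abbrev AbsGal (K : Type) [Field K] : Type := Gal(AlgebraicClosure K/K)

section
variable {K : Type} [Field K]

/-- `g` is an arithmetic Frobenius element at the ideal `Q` of the ring of all algebraic integers, for a
residue field with `q` elements of the place below `Q`. -/
def FrobeniusAt (Q : Ideal (𝓞 (AlgebraicClosure K))) (q : ℕ) (g : AbsGal K) : Prop :=
  ∀ x : 𝓞 (AlgebraicClosure K), g • x - x ^ q ∈ Q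

/-- `Q` is a maximal ideal of the ring of all algebraic integers which lies above the finite
place `v` of `K`. -/
def LiesAbove [NumberField K] (v : HeightOneSpectrum (𝓞 K))
    (Q : Ideal (𝓞 (AlgebraicClosure K))) : Prop :=
  Q.IsMaximal ∧ Q.comap (algebraMap (𝓞 K) (𝓞 (AlgebraicClosure K))) = v.asIdeal

/-- All ratios of eigenvalues of the Frobenius elements at `v` are roots of unity, in the following sense: some
power of each Frobenius element is, under `ρ`, the sum of a scalar and a nilpotent matrix. -/
def RatiosOfFiniteOrderAt [NumberField K] {A : Type} [CommRing A] {n : ℕ}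
    (ρ : AbsGal K →* GL (Fin n) A) (v : HeightOneSpectrum (𝓞 K)) : Prop :=
  ∀ (Q : Ideal (𝓞 (AlgebraicClosure K))) (g : AbsGal K), LiesAbove v Q →
    FrobeniusAt Q (Ideal.absNorm v.asIdeal) g → ∃ k : ℕ, 0 < k ∧ ∃ c : A,
      IsNilpotent (((ρ g : GL (Fin n) A) : Matrix (Fin n) (Fin n) A) ^ k -
        c • (1 : Matrix (Fin n) (Fin n) A))

/-- Every open subgroup of the image of `ρ` has a finite abelianization: if `U` is an open subgroup of the
Galois group and `N` is a closed subgroup of `U` which contains the kernel of `ρ` and the commutators of
`U`, then `N` has finite index in `U`. -/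
def FiniteAbelianizations {H : Type} [Group H] (ρ : AbsGal K →* H) : Prop :=
  ∀ U N : Subgroup (AbsGal K), IsOpen (U : Set (AbsGal K)) → IsClosed (N : Set (AbsGal K)) →
    N ≤ U → ρ.ker ≤ N → ⁅U, U⁆ ≤ N → N.relIndex U ≠ 0

end

/-- The topological ring `A` has enough continuous homomorphisms to complete algebraically closed extensions of
`ℚ_p`, with a norm extending the norm of `ℚ_p`: the intersection of the kernels of finitely many of them is a
nilpotent ideal. -/
def Enough (p : ℕ) [Fact p.Prime] (A : Type) [CommRing A] [TopologicalSpace A] : Prop :=
  ∃ (I : Type) (_ : Finite I) (E : I → Type) (_ : ∀ i, NontriviallyNormedField (E i))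
    (_ : ∀ i, CompleteSpace (E i)) (_ : ∀ i, NormedAlgebra ℚ_[p] (E i)) (_ : ∀ i, IsAlgClosed (E i))
    (ι : ∀ i, A →+* E i), (∀ i, Continuous (ι i)) ∧ ∃ N : ℕ, (⨅ i, RingHom.ker (ι i)) ^ N = ⊥

/-- **A positive proportion of Frobenius elements whose eigenvalue ratios are roots of unity.** -/
theorem result {K : Type} [Field K] [NumberField K] {p : ℕ} [Fact p.Prime] {n : ℕ}
    {A : Type} [CommRing A] [TopologicalSpace A] [T1Space A] (hA : Enough p A)
    (ρ : AbsGal K →* GL (Fin n) A) (hρ : Continuous ρ)
    -- the set of the places where the eigenvalue ratios are roots of unity has positive upper density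
    (θ : ℝ) (hθ : θ < 1)
    (hfin : ∃ᶠ x : ℕ in atTop, ({v : HeightOneSpectrum (𝓞 K) | Ideal.absNorm v.asIdeal ≤ x ∧
      ¬ RatiosOfFiniteOrderAt ρ v}.ncard : ℝ) ≤ θ * Nat.primeCounting x) :
    (∃ U : Subgroup (AbsGal K), IsOpen (U : Set (AbsGal K)) ∧ Group.IsSolvable (U.map ρ)) ∧
    (FiniteAbelianizations ρ → (Set.range ρ).Finite) := by
  classical
  obtain ⟨I, _, E, _, _, _, _, ι, hι, N, hN⟩ := hA
  have hdens : ∃ᶠ x : ℕ in atTop, Pool.Agent.W401.Cheb.dens (fun v : HeightOneSpectrum (𝓞 K) =>
      ∃ g, Pool.Agent.W401.Cheb.IsFrob v g ∧ ∀ k : ℕ, 0 < k → ∀ c : A,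
        ¬ IsNilpotent (((ρ g : GL (Fin n) A) : Matrix (Fin n) (Fin n) A) ^ k -
          c • (1 : Matrix (Fin n) (Fin n) A))) x ≤ θ := by
    refine (hfin.and_eventually (Nat.tendsto_primeCounting.eventually_gt_atTop 0)).mono ?_
    rintro N ⟨h1, h3⟩
    have h4 : (0 : ℝ) < (Nat.primeCounting N : ℝ) := by exact_mod_cast h3
    have h5 : Pool.Agent.W401.Cheb.dens (fun v : HeightOneSpectrum (𝓞 K) =>
        ¬ RatiosOfFiniteOrderAt ρ v) N ≤ θ := by
      unfold Pool.Agent.W401.Cheb.dens
      rw [div_le_iff₀ h4]
      exact h1
    refine le_trans (Pool.Agent.R401.Eng.dens_le ?_ N) h5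
    rintro v ⟨g, ⟨Q, hQ, hQv, hg⟩, hk⟩ hfo
    obtain ⟨k, hk0, c, hk1⟩ := hfo Q g ⟨hQ, hQv⟩ hg
    exact hk k hk0 c hk1
  obtain ⟨U, hUo, m, hm⟩ := Pool.Agent.U849.FO.one_ring (p := p) E ι hι hN ρ hρ θ hθ hdens
  refine ⟨⟨U, hUo, Pool.Agent.U849.FO.solvable_of_dser _ m ?_⟩, fun hab => ?_⟩
  · rw [← Pool.Agent.U849.FO.map_dser, eq_bot_iff]
    rintro _ ⟨x, hx, rfl⟩
    exact Subgroup.mem_bot.2 (hm x hx)
  · have hT0 : T1Space (Matrix (Fin n) (Fin n) A) := inferInstanceAs (T1Space (Fin n → Fin n → A))
    have hT : T1Space (GL (Fin n) A) :=
      t1Space_of_injective_of_continuous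
        (f := fun x : GL (Fin n) A => (x : Matrix (Fin n) (Fin n) A))
        (fun x y h => Units.ext h) Units.continuous_val
    exact Pool.Agent.U849.FO.finite_of_fab ρ hρ hUo (m := m)
      (fun x hx => MonoidHom.mem_ker.2 (hm x hx)) hab

end Pool.Agent.Results.MP_924d78_nt.FlatCoefficients
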