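import Pool.Agent.U239.TP.Count
import Pool.Agent.Results.MP_f68ac8_nt.ThreeTamePrimes

/-!
# Tame representations of all dimensions for most triples of primes

Let `p` be an odd prime. For every prime `a ≡ 1` modulo `p`, for most primes `b ≡ 1` modulo `p`, for
most primes `c ≡ 1` modulo `p`, all continuous residually unipotent representations of the absolute
Galois group of `ℚ`, of any dimension and over any Noetherian local ring of residue characteristic
`p`, which are unramified at `p` and at the primes `l ≡ 1` modulo `p`, `l ≠ a, b, c`, factor through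
one finite group.

Proof. By `ThreeTamePrimes` this is true if the linking numbers of `a`, `b`, `c` satisfy an
inequation, and `a`, `b`, `c` is not exceptional. The linking numbers of a new prime with the given
ones, those at the new prime up to a common factor, are equidistributed (Chebotarev,
`Pool.Agent.Q202.QT.densN`), and one has to count.
-/

set_option autoImplicit false

open IsLocalRing Finset Filter

namespace Pool.Agent.Results.MP_924d78_nt.ThreePrimesFinite

open Pool.Agent.Results.MP_f68ac8_nt.ThreeTamePrimes (AbsGal UnramifiedOutside ResiduallyUnipotent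
  linking level HasLevel Exceptional)
open Pool.Agent.Q202.RT Pool.Agent.Q202.QT
open Pool.Agent.W569.TG (lk)
open Pool.Agent.U239.TP

/-- `OneFiniteQuotient p T`: if `p ^ (M + 1)` does not divide `l - 1` for the `l` in `T`, then there
is a normal open subgroup `N` of the absolute Galois group of `ℚ`, of index at most
`p ^ (24 M + 12)`, such that for all `n` and all Noetherian local rings `A` of residue
characteristic `p`, with the adic topology, all continuous, residually unipotent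
`ρ : Gal(ℚbar/ℚ) → GL_n(A)`, which are unramified at the primes above `p` and above the primes
`l ≡ 1` modulo `p`, `l ∉ T`, are trivial on `N`. -/
def OneFiniteQuotient (p : ℕ) (T : Finset ℕ) : Prop :=
  ∀ M : ℕ, (∀ l ∈ T, ¬ p ^ (M + 1) ∣ l - 1) →
    ∃ N : Subgroup AbsGal, N.Normal ∧ IsOpen (N : Set AbsGal) ∧ N.index ≤ p ^ (24 * M + 12) ∧
      ∀ (n : ℕ) (A : Type) [CommRing A] [IsLocalRing A] [IsNoetherianRing A] [TopologicalSpace A],
        IsAdic (maximalIdeal A) → (p : A) ∈ maximalIdeal A →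
        ∀ ρ : AbsGal →* GL (Fin n) A, Continuous ρ → ResiduallyUnipotent ρ →
          UnramifiedOutside p (T : Set ℕ) ρ → ∀ g ∈ N, ρ g = 1

open Classical in
/-- The primes `q ≤ x` with `p ∣ q - 1`. -/
noncomputable def Pr (p x : ℕ) : Finset ℕ := (range (x + 1)).filter fun q => q.Prime ∧ p ∣ q - 1

open Classical in
/-- `ForShare p c P T`: the primes `q ≡ 1 mod p`, `q ∉ T`, such that `T ∪ {q}` has the property `P`
are at least the proportion `c` of the primes `q ≡ 1 mod p` (lower density). -/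
def ForShare (p : ℕ) (c : ℝ) (P : Finset ℕ → Prop) (T : Finset ℕ) : Prop :=
  ∀ ε : ℝ, 0 < ε → ∀ᶠ x : ℕ in atTop, (c - ε) * ((Pr p x).card : ℝ) ≤
    (((Pr p x).filter fun q => q ∉ T ∧ P (insert q T)).card : ℝ)

theorem Pr_eq (p x : ℕ) [Fact p.Prime] : Pr p x = P1 p x := by
  ext l
  rw [mem_P1, Pr, mem_filter, mem_range]
  constructor
  · rintro ⟨h1, h2, h3⟩
    exact ⟨by omega, h2, h3⟩
  · rintro ⟨h1, h2, h3⟩
    exact ⟨by omega, h2, h3⟩

section
variable {p : ℕ} [hpF : Fact p.Prime]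

theorem linking_eq (χ : ∀ j : ℕ, (ZMod j)ˣ →* Multiplicative (ZMod p)) (k j : ℕ) :
    linking χ k j = lk χ k j := rfl

theorem level_ne {m l : ℕ} (hl : HasLevel p m l) : level p m l ≠ 0 := by
  intro h
  unfold level at h
  rw [ZMod.natCast_eq_zero_iff] at h
  apply hl.2
  obtain ⟨c, hc⟩ := h
  refine ⟨c, ?_⟩
  rw [pow_succ, mul_assoc, ← hc, Nat.mul_div_cancel' hl.1]

omit hpF in
theorem level_unique {m m' l : ℕ} (h : HasLevel p m l) (h' : HasLevel p m' l) : m = m' := by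
  by_contra hne
  rcases Nat.lt_or_gt_of_ne hne with h1 | h1
  · exact h.2 ((pow_dvd_pow p h1).trans h'.1)
  · exact h'.2 ((pow_dvd_pow p h1).trans h.1)

/-- the levels of two primes -/
theorem exists_levels (p : ℕ) [Fact p.Prime] (a b : ℕ) : ∃ ua ub : ZMod p, ua ≠ 0 ∧ ub ≠ 0 ∧
    ∀ m, HasLevel p m a → HasLevel p m b → level p m a = ua ∧ level p m b = ub := by
  by_cases h : ∃ m, HasLevel p m a ∧ HasLevel p m b
  · obtain ⟨m, h1, h2⟩ := h
    refine ⟨level p m a, level p m b, level_ne h1, level_ne h2, fun m' h3 h4 => ?_⟩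
    rw [level_unique h3 h1]
    exact ⟨rfl, rfl⟩
  · exact ⟨1, 1, one_ne_zero, one_ne_zero, fun m h1 h2 => absurd ⟨m, h1, h2⟩ h⟩

theorem insert3 (a b q : ℕ) : insert q (insert b ({a} : Finset ℕ)) = {a, b, q} := by
  ext x
  simp only [mem_insert, mem_singleton]
  tauto

/-- the criterion in terms of `GC` -/
theorem crit (hp2 : p ≠ 2) (χ : ∀ j : ℕ, (ZMod j)ˣ →* Multiplicative (ZMod p)) {a b q : ℕ}
    (ha : a.Prime) (hb : b.Prime) (hq : q.Prime) (hpa : p ∣ a - 1) (hpb : p ∣ b - 1)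
    (hpq : p ∣ q - 1) (hab : a ≠ b) (haq : a ≠ q) (hbq : b ≠ q) {ua ub : ZMod p}
    (hu : ∀ m, HasLevel p m a → HasLevel p m b → level p m a = ua ∧ level p m b = ub)
    {w s : Fin 3 → ZMod p} (hw1 : w 1 = lk χ a q) (hw2 : w 2 = lk χ b q) (hs1 : s 1 = lk χ q a)
    (hs2 : s 2 = lk χ q b) (h : GC (lk χ a b) (lk χ b a) ua ub w s) :
    OneFiniteQuotient p {a, b, q} := by
  intro M hM
  have hΔ : linking χ a q * linking χ b a * linking χ q b ≠
      linking χ a b * linking χ b q * linking χ q a := by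
    simp only [linking_eq]
    have := h.1
    rwa [hw1, hw2, hs1, hs2] at this
  have hexc : ¬ Exceptional χ a b q := by
    rintro ⟨m, ⟨h1, h2, h3⟩, e1, e2, e3⟩
    obtain ⟨hua, hub⟩ := hu m h1 h2
    simp only [linking_eq] at e1 e2 e3
    apply h.2
    rw [hw1, hw2, hs1, hs2, ← hua, ← hub]
    refine ⟨e1, ?_⟩
    linear_combination lk χ a b * e3 - lk χ b a * e2
  obtain ⟨N, h1, h2, h3, h4⟩ := Pool.Agent.Results.MP_f68ac8_nt.ThreeTamePrimes.result p hp2 χ a b q
    ⟨ha, hpa⟩ ⟨hb, hpb⟩ ⟨hq, hpq⟩ hab haq hbq hΔ hexc M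
    ⟨hM a (by simp), hM b (by simp), hM q (by simp)⟩
  refine ⟨N, h1, h2, h3, fun n A _ _ _ _ hA hpA ρ hρ hres hur => h4 n A hA hpA ρ hρ hres ?_⟩
  intro P hP l hl hlP hcond
  refine hur P hP l hl hlP (hcond.imp_right fun h5 => ⟨h5.1, fun h6 => h5.2 ?_⟩)
  simpa using h6

/-- the third prime -/
theorem third (hp2 : p ≠ 2) (χ : ∀ j : ℕ, (ZMod j)ˣ →* Multiplicative (ZMod p)) (hχ : Kr χ)
    {a b : ℕ} (ha : a.Prime) (hb : b.Prime) (hpa : p ∣ a - 1) (hpb : p ∣ b - 1) (hab : a ≠ b)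
    {δ : ℝ} (hδ : δ ≤ 1) {X : ℕ} (hX : δ * ((p : ℝ) ^ 3 * (p : ℝ) ^ 3) ≤ (X : ℝ))
    (hcount : open Classical in ∀ ua ub : ZMod p, ua ≠ 0 → ub ≠ 0 → X ≤
      ∑ w : Fin 3 → ZMod p, ((univ : Finset (Fin 3 → ZMod p)).filter
        fun s => GC (lk χ a b) (lk χ b a) ua ub w s).card) :
    ForShare p δ (OneFiniteQuotient p) (insert b {a}) := by
  classical
  have hp : p.Prime := hpF.out
  have hp0 : (0 : ℝ) < p := by exact_mod_cast hp.pos
  intro ε hε
  obtain ⟨ua, ub, hua, hub, hu⟩ := exists_levels p a b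
  obtain ⟨Good, hGood⟩ : ∃ G : (Fin (2 + 1) → ZMod p) → (Fin (2 + 1) → ZMod p) → Prop,
      G = fun w s => GC (lk χ a b) (lk χ b a) ua ub w s := ⟨_, rfl⟩
  have hli : Function.Injective ![a, b] := by
    intro i j h
    fin_cases i <;> fin_cases j
    · rfl
    · exact absurd h hab
    · exact absurd h.symm hab
    · rfl
  have hd := densN hp2 χ hχ ![a, b] (by
      intro i
      fin_cases i
      exacts [ha, hb]) (by
      intro i
      fin_cases i
      exacts [hpa, hpb]) hli Good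
    (fun w s h => by rw [hGood] at h; exact GC_ne h)
    (fun w s c hc h => by rw [hGood] at h ⊢; exact GC_scale c hc h) δ hδ (by
      have hpos : (0 : ℝ) < (p : ℝ) ^ (2 + 1) * ((p ^ (2 + 1) : ℕ) : ℝ) := by
        push_cast
        positivity
      rw [Fintype.card_fin, Fintype.card_fun, ZMod.card, Fintype.card_fin, le_div_iff₀ hpos]
      have h1 := hcount ua ub hua hub
      have h2 : (X : ℝ) ≤ ((∑ w : Fin 3 → ZMod p, ((univ : Finset (Fin 3 → ZMod p)).filter
        fun s => GC (lk χ a b) (lk χ b a) ua ub w s).card : ℕ) : ℝ) := Nat.cast_le.2 h1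
      refine le_trans ?_ (h2.trans (le_of_eq ?_))
      · refine le_trans (le_of_eq ?_) hX
        push_cast
        ring
      · rw [hGood]) ε hε
  filter_upwards [hd] with x hx
  rw [Pr_eq]
  refine le_trans hx (Nat.cast_le.2 (card_le_card fun q hq => ?_))
  obtain ⟨h1, h2, h3⟩ := (@Finset.mem_filter _ _ _ _ _).1 hq
  rw [hGood] at h3
  obtain ⟨-, hqp, hpq⟩ := mem_P1.1 h1
  have hqa : q ≠ a := h2 0
  have hqb : q ≠ b := h2 1
  simp only [Finset.mem_filter]
  refine ⟨h1, ?_, ?_⟩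
  · rw [mem_insert, mem_singleton, not_or]
    exact ⟨hqb, hqa⟩
  · rw [insert3]
    exact crit hp2 χ ha hb hqp hpa hpb hpq hab hqa.symm hqb.symm hu rfl rfl rfl rfl h3

/-- the second prime, both linking numbers are not zero -/
theorem second_both (hp2 : p ≠ 2) (χ : ∀ j : ℕ, (ZMod j)ˣ →* Multiplicative (ZMod p)) (hχ : Kr χ)
    {a : ℕ} (ha : a.Prime) (hpa : p ∣ a - 1) {P : Finset ℕ → Prop}
    (h : ∀ q : ℕ, q.Prime → p ∣ q - 1 → a ≠ q → lk χ a q ≠ 0 → lk χ q a ≠ 0 → P (insert q {a})) :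
    ForShare p ((1 - 1 / (p : ℝ)) ^ 2) P {a} := by
  classical
  have hp : p.Prime := hpF.out
  have hp0 : (0 : ℝ) < p := by exact_mod_cast hp.pos
  have hp1 : (1 : ℝ) ≤ p := by exact_mod_cast hp.one_le
  intro ε hε
  obtain ⟨Good, hGood⟩ : ∃ G : (Fin (1 + 1) → ZMod p) → (Fin (1 + 1) → ZMod p) → Prop,
      G = fun w s => w 1 ≠ 0 ∧ s 1 ≠ 0 := ⟨_, rfl⟩
  have hd := densN hp2 χ hχ (fun _ : Fin 1 => a) (fun _ => ha) (fun _ => hpa)
    (fun i j _ => Subsingleton.elim i j) Good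
    (fun w s h0 h1 => by
      rw [hGood] at h0
      exact h0.1 (by rw [h1]; rfl))
    (fun w s c hc h0 => by
      rw [hGood] at h0 ⊢
      exact ⟨mul_ne_zero hc h0.1, h0.2⟩) ((1 - 1 / (p : ℝ)) ^ 2) (by
      have h1 : (0 : ℝ) < 1 / p := by positivity
      have h2 : 1 / (p : ℝ) ≤ 1 := by rw [div_le_one hp0]; exact hp1
      nlinarith) (by
      have e : ∑ w : Fin (1 + 1) → ZMod p, (if w 1 ≠ 0 then (p - 1) * p ^ (1 + 1 - 1) else 0) ≤
          ∑ w : Fin (1 + 1) → ZMod p, ((univ : Finset (Fin (1 + 1) → ZMod p)).filter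
            fun s => Good w s).card := by
        refine sum_le_sum fun w _ => ?_
        split_ifs with h0
        · rw [← card_ne (p := p) (k := 1 + 1) 1]
          refine card_le_card fun s hs => (@Finset.mem_filter _ _ _ _ _).2 ⟨mem_univ _, ?_⟩
          rw [hGood]
          exact ⟨h0, ((@Finset.mem_filter _ _ _ _ _).1 hs).2⟩
        · exact Nat.zero_le _
      rw [← sum_filter, sum_const, card_ne (k := 1 + 1) 1, smul_eq_mul] at e
      have hppos : (0 : ℝ) < (p : ℝ) ^ (1 + 1) * ((p ^ (1 + 1) : ℕ) : ℝ) := by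
        push_cast
        positivity
      rw [Fintype.card_fin, Fintype.card_fun, ZMod.card, Fintype.card_fin, le_div_iff₀ hppos]
      have e' : (((p - 1) * p ^ (1 + 1 - 1) * ((p - 1) * p ^ (1 + 1 - 1)) : ℕ) : ℝ) ≤
          ((∑ w : Fin (1 + 1) → ZMod p, ((univ : Finset (Fin (1 + 1) → ZMod p)).filter
            fun s => Good w s).card : ℕ) : ℝ) := Nat.cast_le.2 e
      refine le_trans (le_of_eq ?_) e'
      push_cast [Nat.cast_sub hp.one_le]
      field_simp) ε hε
  filter_upwards [hd] with x hx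
  rw [Pr_eq]
  refine le_trans hx (Nat.cast_le.2 (card_le_card fun q hq => ?_))
  obtain ⟨h1, h2, h3⟩ := (@Finset.mem_filter _ _ _ _ _).1 hq
  rw [hGood] at h3
  obtain ⟨-, hqp, hpq⟩ := mem_P1.1 h1
  have haq : a ≠ q := fun h => h2 0 h.symm
  simp only [Finset.mem_filter]
  refine ⟨h1, ?_, h q hqp hpq haq h3.1 h3.2⟩
  rw [mem_singleton]
  exact fun h => haq h.symm

theorem infinite_Pr (p : ℕ) [Fact p.Prime] (a : ℕ) : {q : ℕ | (q.Prime ∧ p ∣ q - 1) ∧ q ≠ a}.Infinite := by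
  intro hfin
  have h1 : Tendsto (fun x : ℕ => ((P1 p x).card : ℝ)) atTop atTop := P1_tendsto
  obtain ⟨x, hx⟩ := (h1.eventually (eventually_gt_atTop ((hfin.toFinset.card : ℝ) + 1))).exists
  have h2 : P1 p x ⊆ insert a hfin.toFinset := by
    intro q hq
    obtain ⟨-, h3, h4⟩ := mem_P1.1 hq
    rw [mem_insert, Set.Finite.mem_toFinset]
    by_cases h5 : q = a
    · exact Or.inl h5
    · exact Or.inr ⟨⟨h3, h4⟩, h5⟩
  have h3 := (card_le_card h2).trans (card_insert_le _ _)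
  have h4 : ((P1 p x).card : ℝ) ≤ (hfin.toFinset.card : ℝ) + 1 := by exact_mod_cast h3
  linarith

/-- the second prime, one of the linking numbers is not zero. The primes `q` such that `p` and `a`
are `p`-th powers modulo `q` are reached by auxiliary primes. -/
theorem second_any (hp2 : p ≠ 2) (χ : ∀ j : ℕ, (ZMod j)ˣ →* Multiplicative (ZMod p)) (hχ : Kr χ)
    {a : ℕ} (ha : a.Prime) (hpa : p ∣ a - 1) {P : Finset ℕ → Prop}
    (h : ∀ q : ℕ, q.Prime → p ∣ q - 1 → a ≠ q → (lk χ a q ≠ 0 ∨ lk χ q a ≠ 0) → P (insert q {a})) :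
    ForShare p (1 - 1 / (p : ℝ) ^ 2) P {a} := by
  classical
  have hp : p.Prime := hpF.out
  have hp0 : (0 : ℝ) < p := by exact_mod_cast hp.pos
  have hp1 : (1 : ℝ) < p := by exact_mod_cast hp.one_lt
  intro ε hε
  obtain ⟨k, hk⟩ : ∃ k : ℕ, 1 / (p : ℝ) ^ k ≤ ε / 2 := by
    obtain ⟨k, hk⟩ := exists_pow_lt_of_lt_one (half_pos hε)
      (show (1 / (p : ℝ)) < 1 by rw [div_lt_one hp0]; exact hp1)
    refine ⟨k, ?_⟩
    rw [one_div, ← inv_pow, ← one_div]
    exact hk.le
  have := (infinite_Pr p a).to_subtype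
  obtain ⟨f⟩ : Nonempty (Fin k ↪ {q : ℕ | (q.Prime ∧ p ∣ q - 1) ∧ q ≠ a}) :=
    ⟨(Fin.valEmbedding).trans (Infinite.natEmbedding _)⟩
  obtain ⟨l, hl⟩ : ∃ l : Fin (k + 1) → ℕ, l = Fin.cons a fun i => (f i : ℕ) := ⟨_, rfl⟩
  have hl0 : l 0 = a := by rw [hl]; rfl
  have hall : ∀ i, (l i).Prime ∧ p ∣ l i - 1 := by
    intro i
    rw [hl]
    refine Fin.cases ?_ (fun j => ?_) i
    · exact ⟨ha, hpa⟩
    · exact (f j).2.1
  have hli : Function.Injective l := by
    rw [hl, Fin.cons_injective_iff]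
    refine ⟨?_, fun i j hij => f.injective (Subtype.ext hij)⟩
    rintro ⟨i, hi⟩
    exact (f i).2.2 hi
  obtain ⟨Good, hGood⟩ : ∃ G : (Fin (k + 1 + 1) → ZMod p) → (Fin (k + 1 + 1) → ZMod p) → Prop,
      G = fun w s => w ≠ 0 ∧ (w 1 ≠ 0 ∨ s 1 ≠ 0) := ⟨_, rfl⟩
  obtain ⟨δ, hδ⟩ : ∃ δ : ℝ, δ = 1 - 1 / (p : ℝ) ^ 2 - 1 / (p : ℝ) ^ (k + 2) := ⟨_, rfl⟩
  have hpos1 : (0 : ℝ) < 1 / (p : ℝ) ^ 2 := by positivity
  have hpos2 : (0 : ℝ) < 1 / (p : ℝ) ^ (k + 2) := by positivity
  have hle : 1 / (p : ℝ) ^ (k + 2) ≤ 1 / (p : ℝ) ^ k :=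
    one_div_le_one_div_of_le (by positivity) (pow_le_pow_right₀ hp1.le (by omega))
  have hd := densN hp2 χ hχ l (fun i => (hall i).1) (fun i => (hall i).2) hli Good
    (fun w s h0 => by
      rw [hGood] at h0
      exact h0.1)
    (fun w s c hc h0 => by
      rw [hGood] at h0 ⊢
      refine ⟨fun h1 => h0.1 ?_, ?_⟩
      · funext i
        have h2 : c * w i = 0 := congrFun h1 i
        exact (mul_eq_zero.1 h2).resolve_left hc
      · exact h0.2.imp_left fun h1 => mul_ne_zero hc h1) δ (by linarith) (by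
      have h1 := count_any (p := p) (k := k + 1 + 1) 1
      have hppos : (0 : ℝ) < (p : ℝ) ^ (k + 1 + 1) * ((p ^ (k + 1 + 1) : ℕ) : ℝ) := by
        push_cast
        positivity
      rw [Fintype.card_fin, Fintype.card_fun, ZMod.card, Fintype.card_fin, le_div_iff₀ hppos]
      have e' : ((p ^ (k + 1 + 1) * p ^ (k + 1 + 1) : ℕ) : ℝ) ≤
          ((∑ w : Fin (k + 1 + 1) → ZMod p, ((univ : Finset (Fin (k + 1 + 1) → ZMod p)).filter
            fun s => Good w s).card + (p ^ (k + 1 + 1) + p ^ (k + 1 + 1 - 1) * p ^ (k + 1 + 1 - 1)) : ℕ) : ℝ) := by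
        refine Nat.cast_le.2 (h1.trans (Nat.add_le_add_right (sum_le_sum fun w _ =>
          card_le_card fun s hs => (@Finset.mem_filter _ _ _ _ _).2 ⟨mem_univ _, ?_⟩) _))
        rw [hGood]
        exact ((@Finset.mem_filter _ _ _ _ _).1 hs).2
      rw [Nat.cast_add] at e'
      have e2 : δ * ((p : ℝ) ^ (k + 1 + 1) * ((p ^ (k + 1 + 1) : ℕ) : ℝ)) =
          ((p ^ (k + 1 + 1) * p ^ (k + 1 + 1) : ℕ) : ℝ) -
          ((p ^ (k + 1 + 1) + p ^ (k + 1 + 1 - 1) * p ^ (k + 1 + 1 - 1) : ℕ) : ℝ) := by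
        rw [hδ, Nat.add_sub_cancel]
        push_cast
        field_simp
        ring
      rw [e2]
      linarith) (ε / 2) (half_pos hε)
  filter_upwards [hd] with x hx
  rw [Pr_eq]
  have h0 : (1 - 1 / (p : ℝ) ^ 2 - ε) * ((P1 p x).card : ℝ) ≤ (δ - ε / 2) * ((P1 p x).card : ℝ) :=
    mul_le_mul_of_nonneg_right (by linarith) (Nat.cast_nonneg _)
  refine le_trans (h0.trans hx) (Nat.cast_le.2 (card_le_card fun q hq => ?_))
  obtain ⟨h1, h2, h3⟩ := (@Finset.mem_filter _ _ _ _ _).1 hq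
  rw [hGood] at h3
  obtain ⟨-, hqp, hpq⟩ := mem_P1.1 h1
  have haq : a ≠ q := fun h => h2 0 (by rw [hl0]; exact h.symm)
  simp only [Finset.mem_filter]
  refine ⟨h1, ?_, h q hqp hpq haq ?_⟩
  · rw [mem_singleton]
    exact fun h => haq h.symm
  · have e1 : vec χ (Fin.cons p l : Fin (k + 1 + 1) → ℕ) q 1 = lk χ a q := by
      rw [← hl0]
      rfl
    have e2 : (Fin.cons (lv p q) (fun i => lk χ q (l i)) : Fin (k + 1 + 1) → ZMod p) 1 = lk χ q a := by
      rw [← hl0]
      rfl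
    have h4 := h3.2
    rwa [e1, e2] at h4

end

/-- **Tame representations of all dimensions for most triples of primes.** Let `p` be an odd prime,
and let `a` be a prime with `a ≡ 1 mod p`.
(1) For at least the proportion `1 - 1/p²` of the primes `b ≡ 1 mod p`, for at least the proportion
`(1 - 1/p)²` of the primes `c ≡ 1 mod p`, all continuous residually unipotent representations of
the absolute Galois group of `ℚ`, of any dimension over any Noetherian local ring of residue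
characteristic `p`, unramified at `p` and at the primes `l ≡ 1 mod p` which are not `a`, `b`, `c`,
factor through one finite group, whose order is bounded.
(2) The same for at least the proportion `(1 - 1/p)²` of the primes `b` and at least the proportion
`(1 - 1/p)² (1 + 1/p - 1/p²)` of the primes `c`. -/
theorem result (p : ℕ) [Fact p.Prime] (hp2 : p ≠ 2) (a : ℕ) (ha : a.Prime) (hpa : p ∣ a - 1) :
    ForShare p (1 - 1 / (p : ℝ) ^ 2)
      (ForShare p ((1 - 1 / (p : ℝ)) ^ 2) (OneFiniteQuotient p)) {a} ∧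
    ForShare p ((1 - 1 / (p : ℝ)) ^ 2)
      (ForShare p ((1 - 1 / (p : ℝ)) ^ 2 * (1 + 1 / (p : ℝ) - 1 / (p : ℝ) ^ 2))
        (OneFiniteQuotient p)) {a} := by
  classical
  have hp : p.Prime := Fact.out
  have hp0 : (0 : ℝ) < p := by exact_mod_cast hp.pos
  have hp1 : (1 : ℝ) ≤ p := by exact_mod_cast hp.one_le
  have hx1 : (0 : ℝ) < 1 / p := by positivity
  have hx2 : 1 / (p : ℝ) ≤ 1 := by rw [div_le_one hp0]; exact hp1
  obtain ⟨χ, hχ, -⟩ := extend (p := p) (fun _ => 1) ∅ (fun j hj => absurd hj (Set.notMem_empty j))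
  have h23 : p ^ 2 ≤ p ^ 3 := Nat.pow_le_pow_right hp.pos (by norm_num)
  have both : ∀ b : ℕ, b.Prime → p ∣ b - 1 → a ≠ b → lk χ a b ≠ 0 → lk χ b a ≠ 0 →
      ForShare p ((1 - 1 / (p : ℝ)) ^ 2 * (1 + 1 / (p : ℝ) - 1 / (p : ℝ) ^ 2))
        (OneFiniteQuotient p) (insert b {a}) := by
    intro b hb hpb hab h1 h2
    refine third hp2 χ hχ ha hb hpa hpb hab ?_ ?_ fun ua ub hua hub =>
      count_both hp2 h1 h2 hua hub
    · have e : (1 / (p : ℝ)) ^ 2 = 1 / (p : ℝ) ^ 2 := by rw [one_div_pow]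
      rw [← e]
      generalize 1 / (p : ℝ) = y at hx1 hx2
      nlinarith [mul_nonneg hx1.le (sub_nonneg.2 hx2), mul_nonneg (mul_nonneg hx1.le hx1.le) (sub_nonneg.2 hx2),
        mul_nonneg (mul_nonneg hx1.le (sub_nonneg.2 hx2)) (mul_nonneg hx1.le (sub_nonneg.2 hx2))]
    · push_cast [Nat.cast_sub hp.one_le, Nat.cast_sub h23]
      apply le_of_eq
      field_simp
      ring
  refine ⟨?_, ?_⟩
  · refine second_any hp2 χ hχ ha hpa fun b hb hpb hab h1 => ?_
    by_cases h2 : lk χ a b = 0 ∨ lk χ b a = 0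
    · refine third hp2 χ hχ ha hb hpa hpb hab ?_ ?_ fun ua ub hua hub =>
        count_one h1 h2 hua hub
      · nlinarith
      · push_cast [Nat.cast_sub hp.one_le]
        apply le_of_eq
        field_simp
    · rw [not_or] at h2
      have h3 := both b hb hpb hab h2.1 h2.2
      intro ε hε
      filter_upwards [h3 ε hε] with x hx
      refine le_trans (mul_le_mul_of_nonneg_right ?_ (Nat.cast_nonneg _)) hx
      have e : (1 / (p : ℝ)) ^ 2 = 1 / (p : ℝ) ^ 2 := by rw [one_div_pow]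
      rw [← e]
      generalize 1 / (p : ℝ) = y at hx1 hx2
      nlinarith [mul_nonneg hx1.le (sub_nonneg.2 hx2), sq_nonneg (1 - y),
        mul_nonneg (sq_nonneg (1 - y)) (mul_nonneg hx1.le (sub_nonneg.2 hx2))]
  · exact second_both hp2 χ hχ ha hpa fun b hb hpb hab h1 h2 => both b hb hpb hab h1 h2

end Pool.Agent.Results.MP_924d78_nt.ThreePrimesFinite
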